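import Pool.Agent.MP_1c0426_nt.Mg.Cert
import Pool.Agent.MP_1c0426_nt.Mg.DataA
import Pool.Agent.MP_1c0426_nt.Mg.DataB

/-! Explicit upper bounds for finite `B_h` sets, `h ≥ 5`. -/

set_option autoImplicit false

namespace Pool.Agent.Results.MP_1c0426_nt.UpperBounds

open Filter Pool.Agent.MP_1c0426_nt

/-- `F h n` is the largest size of a `B_h` subset of `{1, …, n}`. -/
noncomputable def F (h n : ℕ) : ℕ :=
  sSup {k : ℕ | ∃ A : Finset ℕ, A ⊆ Finset.Icc 1 n ∧ A.card = k ∧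
    ∀ s t : Multiset ℕ, Multiset.card s = h → Multiset.card t = h →
      (∀ x ∈ s, x ∈ A) → (∀ x ∈ t, x ∈ A) → s.sum = t.sum → s = t}

/-- the constants `c k` -/
noncomputable def c : ℕ → ℝ
  | 3 => 2.34
  | 4 => 2.85
  | 5 => 3.30
  | 6 => 3.71
  | 7 => 4.08
  | 8 => 4.43
  | 9 => 4.75
  | 10 => 5.05
  | 11 => 5.34
  | 12 => 5.62
  | k => 4 ^ k / (Nat.choose (2 * k) k : ℝ)

theorem good_c {k : ℕ} (hk : 3 ≤ k) : 0 < c k ∧ ∃ J, Good k J (k / c k) := by
  by_cases h : k ≤ 12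
  · interval_cases k
    · exact ⟨by norm_num [c], by convert good3 using 3; norm_num [c]⟩
    · exact ⟨by norm_num [c], by convert good4 using 3; norm_num [c]⟩
    · exact ⟨by norm_num [c], by convert good5 using 3; norm_num [c]⟩
    · exact ⟨by norm_num [c], by convert good6 using 3; norm_num [c]⟩
    · exact ⟨by norm_num [c], by convert good7 using 3; norm_num [c]⟩
    · exact ⟨by norm_num [c], by convert good8 using 3; norm_num [c]⟩
    · exact ⟨by norm_num [c], by convert good9 using 3; norm_num [c]⟩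
    · exact ⟨by norm_num [c], by convert good10 using 3; norm_num [c]⟩
    · exact ⟨by norm_num [c], by convert good11 using 3; norm_num [c]⟩
    · exact ⟨by norm_num [c], by convert good12 using 3; norm_num [c]⟩
  · obtain ⟨m, rfl⟩ : ∃ m, k = m + 13 := ⟨k - 13, by omega⟩
    have e : c (m + 13) = 4 ^ (m + 13) / (Nat.choose (2 * (m + 13)) (m + 13) : ℝ) := rfl
    have hp : (0 : ℝ) < (Nat.choose (2 * (m + 13)) (m + 13) : ℝ) := by
      exact_mod_cast Nat.choose_pos (by omega)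
    have hg := good_cos (k := m + 13) (by omega)
    generalize m + 13 = k at *
    refine ⟨by rw [e]; positivity, k / 2, ?_⟩
    convert hg using 1
    rw [e]
    field_simp

theorem exists_extremal (h n : ℕ) (hh : 0 < h) :
    ∃ A : Finset ℕ, A ⊆ Finset.Icc 1 n ∧ A.card = F h n ∧ IsB h A := by
  have := Nat.sSup_mem (s := {k : ℕ | ∃ A : Finset ℕ, A ⊆ Finset.Icc 1 n ∧ A.card = k ∧
    ∀ s t : Multiset ℕ, Multiset.card s = h → Multiset.card t = h →
      (∀ x ∈ s, x ∈ A) → (∀ x ∈ t, x ∈ A) → s.sum = t.sum → s = t})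
    ⟨0, ∅, by simp, rfl, fun s t hs _ h1 _ _ => by
      obtain ⟨x, hx⟩ := Multiset.card_pos_iff_exists_mem.1 (hs ▸ hh)
      simpa using h1 x hx⟩
    ⟨(Finset.Icc 1 n).card, by
      rintro k ⟨A, hA, rfl, _⟩
      exact Finset.card_le_card hA⟩
  exact this

theorem result : ∀ h : ℕ, 5 ≤ h → ∀ ε : ℝ, 0 < ε → ∀ᶠ n : ℕ in Filter.atTop,
    (F h n : ℝ) / (n : ℝ) ^ ((1 : ℝ) / (h : ℝ)) ≤
      ((Nat.factorial ((h + 1) / 2) : ℝ) * (Nat.factorial (h / 2) : ℝ) * c ((h + 1) / 2)) ^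
        ((1 : ℝ) / (h : ℝ)) + ε := by
  intro h hh ε hε
  obtain ⟨hc, J, hG⟩ := good_c (k := (h + 1) / 2) (by omega)
  set k := (h + 1) / 2 with hk
  set l := h / 2 with hl
  have hkl : k + l = h := by omega
  have hk0 : 0 < k := by omega
  have hk' : (0 : ℝ) < k := by exact_mod_cast hk0
  set K : ℝ := (Nat.factorial k : ℝ) * (Nat.factorial l : ℝ) * c k with hK
  have hK0 : 0 < K := by positivity
  have hh0 : h ≠ 0 := by omega
  set B : ℝ := K ^ ((1 : ℝ) / (h : ℝ)) + ε with hB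
  have hr : 0 ≤ K ^ ((1 : ℝ) / (h : ℝ)) := Real.rpow_nonneg hK0.le _
  have hKB : K < B ^ h := by
    have e : (K ^ ((1 : ℝ) / (h : ℝ))) ^ h = K := by
      rw [one_div]; exact Real.rpow_inv_natCast_pow hK0.le hh0
    rw [← e]
    exact pow_lt_pow_left₀ (by linarith) hr hh0
  have ha := asym (l := l) (r := k - l) hG (div_pos hk' hc) (by omega) hk0 (sub_pos.2 hKB)
  filter_upwards [ha, eventually_gt_atTop 0] with n hn hn0
  obtain ⟨A, hA, hcard, hBA⟩ := exists_extremal h n (by omega)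
  have h1 := hn A hA (hkl ▸ hBA)
  have hn' : (0 : ℝ) < n := by exact_mod_cast hn0
  have e : (k.factorial : ℝ) * l.factorial * (k / (k / c k)) + (B ^ h - K) = B ^ h := by
    rw [hK]; field_simp; ring
  rw [e, hkl, hcard] at h1
  have hp : 0 < (n : ℝ) ^ ((1 : ℝ) / (h : ℝ)) := Real.rpow_pos_of_pos hn' _
  rw [div_le_iff₀ hp]
  refine le_of_pow_le_pow_left₀ hh0 (by positivity) ?_
  rw [mul_pow, one_div, Real.rpow_inv_natCast_pow hn'.le hh0]
  exact h1

end Pool.Agent.Results.MP_1c0426_nt.UpperBounds
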